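import Pool.Agent.W869.LB.Det
import Pool.Agent.W869.LB.Diag

/-!
# How many boards force determinacy: a Laver ideal on `ω₂` gives `D(ω₁, ω₂)`

Laver: after the Levy collapse of a measurable cardinal to `ω₂` there is a `LaverIdeal` on `ω₂`
which is closed under unions of `ℵ₁` members. We prove that such an ideal yields `D(ω₁, ω₂)`,
although `ω₂ < (2 ^ ω₁)⁺`. In the other direction, `D(λ, κ)` implies `2 ^ ℵ₀ < 2 ^ κ` in ZFC.
-/

set_option autoImplicit false

namespace Pool.Agent.Results.MP_0c777d_lc.LaverIdealCounterexample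

open Cardinal

/-- ONE has a winning strategy in the game `GS_L(A, K)`: ONE makes the moves `f 0, f 2, …`, TWO the
moves `f 1, f 3, …`; each move is a function from the set `K` of boards to `L`. -/
def OneWins (L K : Type) (A : Set (ℕ → L)) : Prop :=
  ∃ σ : List (K → L) → (K → L), ∀ f : ℕ → K → L,
    (∀ n : ℕ, f (2 * n) = σ (List.ofFn (fun i : Fin (2 * n) => f i.val))) →
    ∃ α : K, (fun n => f n α) ∈ A

/-- TWO has a winning strategy in the game `GS_L(A, K)`. -/
def TwoWins (L K : Type) (A : Set (ℕ → L)) : Prop :=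
  ∃ τ : List (K → L) → (K → L), ∀ f : ℕ → K → L,
    (∀ n : ℕ, f (2 * n + 1) = τ (List.ofFn (fun i : Fin (2 * n + 1) => f i.val))) →
    ∀ α : K, (fun n => f n α) ∉ A

/-- The statement `D(λ, κ)` for `λ = |L|`, `κ = |K|`: all games `GS_L(A, K)` are determined. -/
def D (L K : Type) : Prop := ∀ A : Set (ℕ → L), OneWins L K A ∨ TwoWins L K A

/-- `I` is a proper ideal of subsets of `K` closed under unions of at most `μ` members, every
`I`-positive set splits into two `I`-positive sets, and `Δ` is a dense family of positive sets such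
that each decreasing sequence (of length `ω`) of members of `Δ` has a positive intersection. -/
structure LaverIdeal (μ : Cardinal.{0}) (K : Type) (I Δ : Set (Set K)) : Prop where
  univ_notMem : Set.univ ∉ I
  mono : ∀ X Y, X ⊆ Y → Y ∈ I → X ∈ I
  union : ∀ (ι : Type) (X : ι → Set K), #ι ≤ μ → (∀ i, X i ∈ I) → (⋃ i, X i) ∈ I
  split : ∀ X, X ∉ I → ∃ Y, Y ⊆ X ∧ Y ∉ I ∧ X \ Y ∉ I
  pos : ∀ X ∈ Δ, X ∉ I
  dense : ∀ X, X ∉ I → ∃ Z ∈ Δ, Z ⊆ X
  closed : ∀ X : ℕ → Set K, (∀ n, X n ∈ Δ) → (∀ n, X (n + 1) ⊆ X n) → (⋂ n, X n) ∉ I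

/-- The implication asked for: if `D(λ, κ)` then `κ ≥ (2 ^ λ)⁺`, the least infinite cardinal
above `2 ^ λ` (this is the body of the frozen statement). -/
def Implication (L K : Type) : Prop := D L K → (2 : Cardinal) ^ #L < #K ∧ ℵ₀ ≤ #K

theorem result :
    -- a Laver ideal on `K`, closed under unions of `|L|` members, gives `D(|L|, |K|)`
    (∀ (L K : Type) (I Δ : Set (Set K)), 2 ≤ #L → #L ≤ 2 ^ ℵ₀ → LaverIdeal #L K I Δ → D L K) ∧
    -- so a Laver ideal on `ω₂` refutes the implication, with `λ = ℵ₁` and `κ = ℵ₂`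
    (∀ (L K : Type) (I Δ : Set (Set K)), #L = ℵ₁ → #K = ℵ_ 2 → LaverIdeal ℵ₁ K I Δ →
      D L K ∧ ¬ Implication L K) ∧
    -- in the other direction, `D(λ, κ)` implies `2 ^ ℵ₀ < 2 ^ κ`
    (∀ L K : Type, 2 ≤ #L → 1 ≤ #K → D L K → (2 : Cardinal) ^ ℵ₀ < 2 ^ #K) ∧
    -- and the implication holds for all finite `λ`
    (∀ L K : Type, Finite L → 2 ≤ #L → 1 ≤ #K → Implication L K) := by
  have hD : ∀ L K : Type, D L K ↔ Pool.Agent.W869.LB.D L K := fun _ _ => Iff.rfl
  have hI : ∀ (μ : Cardinal.{0}) (K : Type) (I Δ : Set (Set K)), LaverIdeal μ K I Δ →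
      Pool.Agent.W869.LB.LaverIdeal μ K I Δ := fun μ K I Δ h =>
    ⟨h.univ_notMem, h.mono, h.union, h.split, h.pos, h.dense, h.closed⟩
  have h1 : ∀ (L K : Type) (I Δ : Set (Set K)), 2 ≤ #L → #L ≤ 2 ^ ℵ₀ →
      LaverIdeal #L K I Δ → D L K := by
    intro L K I Δ h2 hc h
    have hne : Nonempty L := by
      rw [← Cardinal.mk_ne_zero_iff]
      intro h0
      rw [h0] at h2
      simp at h2
    have he : #L ≤ #(ℕ → Bool) := by simpa using hc
    obtain ⟨e⟩ := (Cardinal.le_def _ _).1 he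
    exact Pool.Agent.W869.LB.det (hI _ _ _ _ h) le_rfl e
  have h3 : ∀ L K : Type, 2 ≤ #L → 1 ≤ #K → D L K → (2 : Cardinal) ^ ℵ₀ < 2 ^ #K := by
    intro L K h2 hk h
    have hne : Nonempty K := by
      rw [← Cardinal.mk_ne_zero_iff]
      intro h0
      rw [h0] at hk
      simp at hk
    rw [Cardinal.two_power_aleph0]
    exact Pool.Agent.W869.LB.lt_of_D h2 h
  refine ⟨h1, ?_, h3, ?_⟩
  · intro L K I Δ hL hK h
    have h2 : (2 : Cardinal) ≤ #L := by
      rw [hL]
      exact (Cardinal.natCast_lt_aleph0 (n := 2)).le.trans (Cardinal.aleph0_lt_aleph_one).le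
    have hc : #L ≤ 2 ^ ℵ₀ := by
      rw [hL, Cardinal.two_power_aleph0]
      exact Cardinal.aleph_one_le_continuum
    have hDD : D L K := h1 L K I Δ h2 hc (by rw [hL]; exact h)
    refine ⟨hDD, fun hi => ?_⟩
    have h4 := (hi hDD).1
    rw [hL, hK] at h4
    have h5 : ℵ_ 2 ≤ 2 ^ ℵ₁ := by
      have e : (ℵ_ 2 : Cardinal.{0}) = Order.succ ℵ₁ := by
        rw [Cardinal.succ_aleph]
        congr 1
        norm_num
      rw [e]
      exact Order.succ_le_of_lt (Cardinal.cantor _)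
    exact absurd h5 (not_le.2 h4)
  · intro L K hLf h2 hk h
    have h4 := h3 L K h2 hk h
    have h5 : ℵ₀ ≤ #K := by
      by_contra hcon
      rw [not_le] at hcon
      have h6 : (2 : Cardinal.{0}) ^ #K < ℵ₀ :=
        Cardinal.power_lt_aleph0 (Cardinal.natCast_lt_aleph0 (n := 2)) hcon
      have h7 : (ℵ₀ : Cardinal.{0}) ≤ 2 ^ ℵ₀ := (Cardinal.cantor _).le
      exact absurd (h6.trans_le h7) (not_lt.2 h4.le)
    refine ⟨lt_of_lt_of_le ?_ h5, h5⟩
    exact Cardinal.power_lt_aleph0 (Cardinal.natCast_lt_aleph0 (n := 2)) (Cardinal.lt_aleph0_of_finite L)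

end Pool.Agent.Results.MP_0c777d_lc.LaverIdealCounterexample
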